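import Pool.Agent.Q4.ZI.Eul

/-!
# Project ZS: small orbits of finite `p`-groups on triangulated spaces
-/

namespace Q4.ZS

open Finset Q4.ZI

theorem card_pow {p : ℕ} [Fact p.Prime] {A : Type} [Group A] [Finite A] (hA : IsPGroup p A)
    {X : Type} [DecidableEq X] [MulAction A X] (K : Finset X) (k : ℕ)
    (hinv : ∀ (g : A), ∀ s ∈ K, g • s ∈ K)
    (horb : ∀ s ∈ K, p ^ k < Nat.card (MulAction.orbit A s)) :
    (p : ℤ) ^ (k + 1) ∣ (K.card : ℤ) := by
  classical
  let act : MulAction A {s // s ∈ K} :=
    { smul := fun g s => ⟨g • s.1, hinv g s.1 s.2⟩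
      one_smul := fun s => Subtype.ext (one_smul A s.1)
      mul_smul := fun g h s => Subtype.ext (mul_smul g h s.1) }
  have hc : Nat.card {s // s ∈ K} = K.card := by simp
  have key : p ^ (k + 1) ∣ Nat.card {s // s ∈ K} := by
    rw [Nat.card_congr (MulAction.selfEquivSigmaOrbits A {s // s ∈ K})]
    rw [Nat.card_sigma]
    refine Finset.dvd_sum fun ω _ => ?_
    obtain ⟨j, hj⟩ := hA.card_orbit (Quotient.out ω : {s // s ∈ K})
    rw [hj]
    refine pow_dvd_pow p ?_
    have h1 := horb (Quotient.out ω : {s // s ∈ K}).1 (Quotient.out ω : {s // s ∈ K}).2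
    have h2 : Nat.card (MulAction.orbit A (Quotient.out ω : {s // s ∈ K}).1) =
        Nat.card (MulAction.orbit A (Quotient.out ω : {s // s ∈ K})) := by
      symm
      refine Nat.card_congr (Equiv.ofBijective
        (fun y => ⟨y.1.1, ?_⟩) ⟨fun y z h => ?_, fun y => ?_⟩)
      · obtain ⟨g, hg⟩ := y.2
        exact ⟨g, congrArg Subtype.val hg⟩
      · have h' : y.1.1 = z.1.1 := congrArg (fun t => t.1) h
        exact Subtype.ext (Subtype.ext h')
      · obtain ⟨y, g, hg⟩ := y
        exact ⟨⟨g • Quotient.out ω, ⟨g, rfl⟩⟩, Subtype.ext hg⟩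
    rw [h2, hj] at h1
    exact Nat.succ_le_of_lt ((Nat.pow_lt_pow_iff_right (Fact.out : p.Prime).one_lt).1 h1)
  rw [hc] at key
  exact_mod_cast key

theorem tEul2 (p : ℕ) [Fact p.Prime] (A : Type) [Group A] [Finite A] (M : Type)
    [TopologicalSpace M] [MulAction A M] (hA : IsPGroup p A) (T : Tri A M) (k : ℕ)
    (hT : ¬ (p : ℤ) ^ (k + 1) ∣ T.chi) : ∃ x : M, Nat.card (MulAction.orbit A x) ≤ p ^ k := by
  letI := T.fin
  letI := T.dec
  letI := T.act
  letI actF : MulAction A (Finset T.V) :=
    { smul := fun g s => s.image fun v => g • v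
      one_smul := fun s => by
        change s.image (fun v => (1 : A) • v) = s
        simp
      mul_smul := fun g h s => by
        change s.image (fun v => (g * h) • v) = (s.image fun v => h • v).image fun v => g • v
        rw [Finset.image_image]
        congr 1
        funext v
        exact mul_smul g h v }
  have hsm : ∀ (g : A) (s : Finset T.V), g • s = s.image fun v => g • v := fun _ _ => rfl
  have hinv : ∀ (g : A), ∀ s ∈ T.K, g • s ∈ T.K := by
    intro g s hs
    exact T.inv g s hs
  have hcard : ∀ (g : A) (s : Finset T.V), (g • s).card = s.card := by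
    intro g s
    rw [hsm]
    exact Finset.card_image_of_injective s (MulAction.injective g)
  by_cases hfix : ∃ s ∈ T.K, Nat.card (MulAction.orbit A s) ≤ p ^ k
  · obtain ⟨s, hs, hsf⟩ := hfix
    have hne := T.nonempty s hs
    have hpos : (0 : ℝ) < s.card := by exact_mod_cast hne.card_pos
    let w : Finset T.V → T.V → ℝ := fun s v => if v ∈ s then (s.card : ℝ)⁻¹ else 0
    have hw0 : ∀ s v, 0 ≤ w s v := by
      intro s v
      simp only [w]
      split_ifs
      · positivity
      · exact le_rfl
    have hw1 : ∀ s ∈ T.K, ∑ v, w s v = 1 := by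
      intro s hs
      have hpos : (0 : ℝ) < s.card := by exact_mod_cast (T.nonempty s hs).card_pos
      simp only [w]
      rw [Finset.sum_ite_mem, Finset.univ_inter, Finset.sum_const, nsmul_eq_mul,
        mul_inv_cancel₀ hpos.ne']
    have hws : ∀ s ∈ T.K, Finset.univ.filter (fun v => w s v ≠ 0) = s := by
      intro s hs
      have hpos : (0 : ℝ) < s.card := by exact_mod_cast (T.nonempty s hs).card_pos
      ext v
      simp only [Finset.mem_filter, Finset.mem_univ, true_and, w]
      constructor
      · intro h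
        by_contra hv
        rw [if_neg hv] at h
        exact h rfl
      · intro h
        rw [if_pos h]
        exact inv_ne_zero hpos.ne'
    have hws' : ∀ s ∈ T.K, Finset.univ.filter (fun v => w s v ≠ 0) ∈ T.K := by
      intro s hs
      rw [hws s hs]
      exact hs
    let b : {s // s ∈ T.K} → M := fun s =>
      T.e ⟨w s.1, hw0 s.1, hw1 s.1 s.2, hws' s.1 s.2⟩
    have hb : ∀ (g : A) (s : {s // s ∈ T.K}), b ⟨g • s.1, hinv g s.1 s.2⟩ = g • b s := by
      intro g s
      refine T.equiv g _ _ fun v => ?_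
      change (if g • v ∈ g • s.1 then ((g • s.1).card : ℝ)⁻¹ else 0) =
        if v ∈ s.1 then (s.1.card : ℝ)⁻¹ else 0
      have hgv : g • v ∈ g • s.1 ↔ v ∈ s.1 := by
        rw [hsm]
        constructor
        · intro h
          rw [Finset.mem_image] at h
          obtain ⟨v', hv', e⟩ := h
          rw [← MulAction.injective g e]
          exact hv'
        · intro h
          exact Finset.mem_image_of_mem _ h
      rw [hcard]
      by_cases hv : v ∈ s.1
      · rw [if_pos hv, if_pos (hgv.2 hv)]
      · rw [if_neg hv, if_neg fun h => hv (hgv.1 h)]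
    refine ⟨b ⟨s, hs⟩, ?_⟩
    have hmemK : ∀ y ∈ MulAction.orbit A s, y ∈ T.K := by
      rintro _ ⟨g, rfl⟩
      exact hinv g s hs
    refine le_trans ?_ hsf
    refine Nat.card_le_card_of_surjective
      (fun y : MulAction.orbit A s => (⟨b ⟨y.1, hmemK y.1 y.2⟩, ?_⟩ :
        MulAction.orbit A (b ⟨s, hs⟩))) ?_
    · obtain ⟨g, hg⟩ := y.2
      refine ⟨g, ?_⟩
      change g • b ⟨s, hs⟩ = _
      rw [← hb]
      congr 1
      exact Subtype.ext hg
    · rintro ⟨_, g, rfl⟩
      refine ⟨⟨g • s, g, rfl⟩, Subtype.ext ?_⟩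
      exact hb g ⟨s, hs⟩
  · exfalso
    push Not at hfix
    apply hT
    have hchi : T.chi = ((T.K.filter fun s => Odd s.card).card : ℤ) -
        ((T.K.filter fun s => ¬ Odd s.card).card : ℤ) := by
      unfold Tri.chi
      rw [← Finset.sum_filter_add_sum_filter_not T.K fun s => Odd s.card]
      have e1 : ∑ s ∈ T.K.filter fun s => Odd s.card, (-1 : ℤ) ^ (s.card + 1) =
          ∑ s ∈ T.K.filter fun s => Odd s.card, (1 : ℤ) := by
        refine Finset.sum_congr rfl fun s hs => ?_
        rw [Finset.mem_filter] at hs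
        exact (Odd.add_one hs.2).neg_one_pow
      have e2 : ∑ s ∈ T.K.filter fun s => ¬ Odd s.card, (-1 : ℤ) ^ (s.card + 1) =
          ∑ s ∈ T.K.filter fun s => ¬ Odd s.card, (-1 : ℤ) := by
        refine Finset.sum_congr rfl fun s hs => ?_
        rw [Finset.mem_filter, Nat.not_odd_iff_even] at hs
        exact (Even.add_one hs.2).neg_one_pow
      rw [e1, e2]
      simp only [Finset.sum_const, nsmul_eq_mul, mul_one, mul_neg]
      ring
    rw [hchi]
    refine dvd_sub (card_pow hA _ k ?_ ?_) (card_pow hA _ k ?_ ?_)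
    · intro g s hs
      rw [Finset.mem_filter] at hs ⊢
      exact ⟨hinv g s hs.1, by rw [hcard]; exact hs.2⟩
    · intro s hs
      exact hfix s (Finset.mem_of_mem_filter s hs)
    · intro g s hs
      rw [Finset.mem_filter] at hs ⊢
      exact ⟨hinv g s hs.1, by rw [hcard]; exact hs.2⟩
    · intro s hs
      exact hfix s (Finset.mem_of_mem_filter s hs)

end Q4.ZS
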