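import Pool.Agent.Q4.ZS.Main2

/-!
# Project ZS: short definitions for the final statement
-/

open Matrix NumberField
open scoped Manifold ContDiff

namespace Q4.ZS

/-- the group `G` acts on the manifold `M` by `C^1` diffeomorphisms -/
def C1Act (G E M : Type) [Group G] [NormedAddCommGroup E] [NormedSpace ℝ E] [TopologicalSpace M]
    [ChartedSpace E M] [MulAction G M] : Prop :=
  ∀ g : G, ContMDiff 𝓘(ℝ, E) 𝓘(ℝ, E) 1 (fun y : M => g • y)

/-- the subgroup `D` has an orbit of at most `2 ^ k` points in `M`, or `M` has a finite triangulation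
invariant under `D` whose Euler characteristic is not divisible by `2 ^ (k + 1)` -/
def SmallOrbit {G : Type} [Group G] (D : Subgroup G) (M : Type) [TopologicalSpace M]
    [MulAction G M] (k : ℕ) : Prop :=
  (∃ x : M, Nat.card (MulAction.orbit D x) ≤ 2 ^ k) ∨
    ∃ T : Q4.ZI.Tri D M, ¬ (2 : ℤ) ^ (k + 1) ∣ T.chi

/-- the group `G` acts on `M` through a finite group -/
def FiniteAct (G M : Type) [Group G] [MulAction G M] : Prop :=
  Finite (MulAction.toPermHom G M).range

/-- `I`, `J` are in the group generated by the elementary `2 × 2` matrices and generate a quaternion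
group of order eight -/
def IsQuat {R : Type} [CommRing R] (I J : GL (Fin 2) R) : Prop :=
  I ∈ Q4.ZI.En R 2 ∧ J ∈ Q4.ZI.En R 2 ∧ I * I = -1 ∧ J * J = -1 ∧ I * J = -(J * I)

/-- the elementary symplectic group over the integers of the number field `F` -/
def Gm (F : Type) [Field F] [NumberField F] (n : ℕ) : Type := Esp (𝓞 F) n

instance (F : Type) [Field F] [NumberField F] (n : ℕ) : Group (Gm F n) :=
  inferInstanceAs (Group (Esp (𝓞 F) n))

/-- the group `Dq` in `Gm F n` -/
def GmD (F : Type) [Field F] [NumberField F] (n : ℕ) (I J : GL (Fin 2) (𝓞 F)) :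
    Subgroup (Gm F n) := Dq (𝓞 F) n I J

/-- the subgroup `EEp` of level `a` in `Gm F n` -/
def GmE (F : Type) [Field F] [NumberField F] (n : ℕ) (a : 𝓞 F) : Subgroup (Gm F n) :=
  (EEp (𝓞 F) n a).subgroupOf (Esp (𝓞 F) n)

theorem main3 (hFin : SFin) (hRep : SRep2) (hDq : SDq) (hDq2 : SDq2) (hNC : SNC)
    (F : Type) [Field F] [NumberField F] (n k : ℕ) (hn : 3 ≤ n) (I J : GL (Fin 2) (𝓞 F))
    (hIJ : IsQuat I J)
    (E M : Type) [NormedAddCommGroup E] [NormedSpace ℝ E] [FiniteDimensional ℝ E]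
    (hE : Module.finrank ℝ E < 4 * (n - 1 - k))
    [TopologicalSpace M] [T2Space M] [ConnectedSpace M] [ChartedSpace E M]
    [IsManifold 𝓘(ℝ, E) 1 M] [act : MulAction (Gm F n) M] (hsm : C1Act (Gm F n) E M)
    (h : SmallOrbit (GmD F n I J) M k) :
    (∀ g ∈ GmE F n 4, ∀ y : M, g • y = y) ∧ FiniteAct (Gm F n) M := by
  obtain ⟨h1, h2, h3, h4, h5⟩ := hIJ
  have key := @main2 hFin hRep hDq hDq2 hNC F _ _ n k hn I J h1 h2 h3 h4 h5 E M _ _ _ hE _ _ _ _ _
    act hsm h
  exact ⟨fun g hg => key.1 g hg, key.2⟩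

end Q4.ZS
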