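import Pool.Agent.Q4.ZS.Stm2
import Pool.Agent.Q4.ZS.Eul2
import Pool.Agent.Q4.ZI.Loc

/-!
# Project ZS: the main theorem from the lemma jobs
-/

open Matrix NumberField
open scoped Manifold ContDiff

namespace Q4.ZS

theorem main2 (hFin : SFin) (hRep : SRep2) (hDq : SDq) (hDq2 : SDq2) (hNC : SNC)
    (F : Type) [Field F] [NumberField F] (n k : ℕ) (hn : 3 ≤ n) (I J : GL (Fin 2) (𝓞 F))
    (hI : I ∈ Q4.ZI.En (𝓞 F) 2) (hJ : J ∈ Q4.ZI.En (𝓞 F) 2) (hII : I * I = -1) (hJJ : J * J = -1)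
    (hIJ : I * J = -(J * I))
    (E M : Type) [NormedAddCommGroup E] [NormedSpace ℝ E] [FiniteDimensional ℝ E]
    (hE : Module.finrank ℝ E < 4 * (n - 1 - k))
    [TopologicalSpace M] [T2Space M] [ConnectedSpace M] [ChartedSpace E M]
    [IsManifold 𝓘(ℝ, E) 1 M] [MulAction (Esp (𝓞 F) n) M]
    (hsm : ∀ g : Esp (𝓞 F) n, ContMDiff 𝓘(ℝ, E) 𝓘(ℝ, E) 1 (fun y : M => g • y))
    (h : (∃ x : M, Nat.card (MulAction.orbit (Dq (𝓞 F) n I J) x) ≤ 2 ^ k) ∨
      ∃ T : Q4.ZI.Tri (Dq (𝓞 F) n I J) M, ¬ (2 : ℤ) ^ (k + 1) ∣ T.chi) :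
    (∀ g : Esp (𝓞 F) n, g.1 ∈ EEp (𝓞 F) n 4 → ∀ y : M, g • y = y) ∧
      Finite (MulAction.toPermHom (Esp (𝓞 F) n) M).range := by
  obtain ⟨hfinD, hpD, -⟩ := hDq (𝓞 F) n I J hI hJ hII hJJ hIJ
  obtain ⟨φ, hφ⟩ := hDq2 (𝓞 F) n I J hI hJ hII hJJ hIJ
  -- the point with a small orbit
  obtain ⟨x, hx⟩ : ∃ x : M, Nat.card (MulAction.orbit (Dq (𝓞 F) n I J) x) ≤ 2 ^ k := by
    rcases h with ⟨x, hx⟩ | ⟨T, hT⟩
    · exact ⟨x, hx⟩
    · have : Fact (Nat.Prime 2) := ⟨Nat.prime_two⟩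
      exact tEul2 2 (Dq (𝓞 F) n I J) M hpD T k (by exact_mod_cast hT)
  -- the stabilizer in the abstract group
  let S : Subgroup (Fin n → QuaternionGroup 2) :=
    (MulAction.stabilizer (Dq (𝓞 F) n I J) x).comap φ
  have hS : S.index ≤ 2 ^ k := by
    refine le_trans ?_ hx
    have h1 : (MulAction.stabilizer (Dq (𝓞 F) n I J) x).index =
        Nat.card (MulAction.orbit (Dq (𝓞 F) n I J) x) := MulAction.index_stabilizer _ _
    rw [← h1]
    change ((MulAction.stabilizer (Dq (𝓞 F) n I J) x).comap φ).index ≤ _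
    rw [Subgroup.index_comap]
    have : (MulAction.stabilizer (Dq (𝓞 F) n I J) x).FiniteIndex := inferInstance
    rw [← Subgroup.relIndex_top_right (MulAction.stabilizer (Dq (𝓞 F) n I J) x)]
    refine Subgroup.relIndex_le_of_le_right le_top ?_
    rw [Subgroup.relIndex_top_right]
    exact this.index_ne_zero
  have hSx : ∀ s : S, φ s.1 • x = x := fun s => s.2
  let act : MulAction S M :=
    { smul := fun s y => φ s.1 • y
      one_smul := fun y => by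
        change φ 1 • y = y
        rw [map_one, one_smul]
      mul_smul := fun s t y => by
        change φ (s.1 * t.1) • y = φ s.1 • φ t.1 • y
        rw [map_mul, mul_smul] }
  obtain ⟨ρ, hρ⟩ := Q4.ZI.tLoc E M S (fun s => hsm (φ s.1).1) x hSx
  obtain ⟨ε, hεS, hε, hρε⟩ := hRep n k S hS E ρ hE
  set N := (MulAction.toPermHom (Esp (𝓞 F) n) M).ker with hN
  have hmem : ∀ g : Esp (𝓞 F) n, g ∈ N ↔ ∀ y : M, g • y = y := by
    intro g
    rw [hN, MonoidHom.mem_ker]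
    constructor
    · intro h y
      exact congrArg (fun f : Equiv.Perm M => f y) h
    · intro h
      exact Equiv.ext h
  have hzN : (φ (zq ε)).1 ∈ N := (hmem _).2 fun y => hρ ⟨zq ε, hεS⟩ hρε y
  have hEE : ∀ g : Esp (𝓞 F) n, g.1 ∈ EEp (𝓞 F) n 4 → g ∈ N :=
    hNC (𝓞 F) n N inferInstance ε (φ (zq ε)).1 hzN hε (hφ ε)
  refine ⟨fun g hg => (hmem g).1 (hEE g hg), ?_⟩
  obtain ⟨m, rfl⟩ : ∃ m, n = m + 3 := ⟨n - 3, by omega⟩
  have h4 : (4 : 𝓞 F) ≠ 0 := by norm_num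
  have hfi : N.FiniteIndex := hFin F m 4 h4 N inferInstance hEE
  have : Finite (Esp (𝓞 F) (m + 3) ⧸ N) := Subgroup.finite_quotient_of_finiteIndex
  exact Finite.of_equiv _ (QuotientGroup.quotientKerEquivRange _).toEquiv

end Q4.ZS
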