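import Pool.Agent.Q4.ZI.Stm

/-!
# Project ZS (helper4): Zimmer's conjecture for elementary symplectic groups over rings of integers
which contain a quaternion group in `E_2(O)`

Definitions and the statements of the lemma jobs.
-/

open Matrix NumberField
open scoped Manifold ContDiff

namespace Q4.ZS

/-- the elementary symplectic group: the group generated by the matrices `(1, S; 0, 1)` and
`(1, 0; S, 1)`, `S` symmetric -/
def Esp (R : Type) [CommRing R] (n : ℕ) : Subgroup (symplecticGroup (Fin n) R) :=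
  Subgroup.closure {x | ∃ S : Matrix (Fin n) (Fin n) R, S.IsSymm ∧
    (x.1 = fromBlocks 1 S 0 1 ∨ x.1 = fromBlocks 1 0 S 1)}

/-- the normal subgroup of `Esp R n` generated by the matrices `(1, a S; 0, 1)` and
`(1, 0; a S, 1)`, `S` symmetric -/
def EEp (R : Type) [CommRing R] (n : ℕ) (a : R) : Subgroup (symplecticGroup (Fin n) R) :=
  Subgroup.closure {x | ∃ (h y : symplecticGroup (Fin n) R) (S : Matrix (Fin n) (Fin n) R),
    h ∈ Esp R n ∧ S.IsSymm ∧ (y.1 = fromBlocks 1 (a • S) 0 1 ∨ y.1 = fromBlocks 1 0 (a • S) 1) ∧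
    x = h * y * h⁻¹}

/-- the `2n × 2n` matrix with the `2 × 2` matrix `h i` in the rows and columns `i, n + i` -/
def blk {R : Type} [CommRing R] {n : ℕ} (h : Fin n → Matrix (Fin 2) (Fin 2) R) :
    Matrix (Fin n ⊕ Fin n) (Fin n ⊕ Fin n) R :=
  fromBlocks (diagonal fun i => h i 0 0) (diagonal fun i => h i 0 1)
    (diagonal fun i => h i 1 0) (diagonal fun i => h i 1 1)

theorem blk_mul {R : Type} [CommRing R] {n : ℕ} (h k : Fin n → Matrix (Fin 2) (Fin 2) R) :
    blk h * blk k = blk (fun i => h i * k i) := by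
  unfold blk
  rw [fromBlocks_multiply]
  simp only [diagonal_mul_diagonal, diagonal_add, Matrix.mul_apply, Fin.sum_univ_two]

theorem blk_one {R : Type} [CommRing R] {n : ℕ} :
    blk (fun _ : Fin n => (1 : Matrix (Fin 2) (Fin 2) R)) = 1 := by
  unfold blk
  simp

/-- the subgroup of the elements of `Esp R n` which are block diagonal with `2 × 2` blocks in the
group generated by `I` and `J` -/
def Dq (R : Type) [CommRing R] (n : ℕ) (I J : GL (Fin 2) R) : Subgroup (Esp R n) where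
  carrier := {x | ∃ h : Fin n → GL (Fin 2) R, (∀ i, h i ∈ Subgroup.closure {I, J}) ∧
    x.1.1 = blk fun i => (h i).1}
  one_mem' := ⟨1, fun _ => Subgroup.one_mem _, by
    change (1 : Matrix (Fin n ⊕ Fin n) (Fin n ⊕ Fin n) R) = _
    rw [← blk_one]
    rfl⟩
  mul_mem' := by
    rintro x y ⟨h, hh, hx⟩ ⟨k, hk, hy⟩
    refine ⟨h * k, fun i => Subgroup.mul_mem _ (hh i) (hk i), ?_⟩
    change x.1.1 * y.1.1 = _
    rw [hx, hy, blk_mul]
    rfl
  inv_mem' := by
    rintro x ⟨h, hh, hx⟩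
    refine ⟨h⁻¹, fun i => Subgroup.inv_mem _ (hh i), ?_⟩
    have e : x.1.1 * (blk fun i => ((h⁻¹) i).1) = 1 := by
      rw [hx, blk_mul, ← blk_one]
      congr 1
      funext i
      change (h i).1 * ((h i)⁻¹).1 = 1
      rw [← Units.val_mul, mul_inv_cancel, Units.val_one]
    have e2 : (x⁻¹).1.1 * x.1.1 = 1 := by
      have : (x⁻¹ * x).1.1 = 1 := by
        rw [inv_mul_cancel]
        rfl
      exact this
    calc (x⁻¹).1.1 = (x⁻¹).1.1 * (x.1.1 * (blk fun i => ((h⁻¹) i).1)) := by rw [e, mul_one]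
      _ = _ := by rw [← mul_assoc, e2, one_mul]

/-- JOB ZS-DEC1. Entries `x j + s j * y j` without a common prime factor.

Proof. Finitely many maximal ideals contain the ideal `(x 0, y 0)`, which is not zero as
`x 0 = 1 mod a` and `a` is not a unit; they do not contain `a`. Each such `P` does not contain some
`x j` or some `y j`, `j ≠ 0`, so by the Chinese remainder theorem there are `s j ∈ (a)`, `j ≠ 0`,
such that no `P ⊇ (x 0, y 0)` contains all `x j + s j * y j`, `j ≠ 0`; `s 1` can be changed by the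
elements of a nonzero ideal, so we may assume `x 1 + s 1 * y 1 ≠ 0` (`y 1 ≠ 0`). Finitely many
maximal ideals `P` contain all `x j + s j * y j`, `j ≠ 0`, none of them contains `(x 0, y 0)`; by the
Chinese remainder theorem there is `s 0 ∈ (a)` with `x 0 + s 0 * y 0` in none of them (if `a ∈ P`
then `x 0 = 1 mod P`, nothing to do; if `a ∉ P` and `x 0 ∈ P` take `s 0` not in `P`, and so on).
(Similar arguments: file Pool/Agent/Q4/ZI/Dec.lean.) -/
def SDec1 : Prop :=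
  ∀ (R : Type) [CommRing R] [IsDomain R] [IsDedekindDomain R] (m : ℕ) (a : R), a ≠ 0 →
    ¬ IsUnit a → ∀ x y : Fin (m + 2) → R, Ideal.span (Set.range x ∪ Set.range y) = ⊤ →
    a ∣ x 0 - 1 → (∀ j, j ≠ 0 → a ∣ x j) → (∀ j, a ∣ y j) → y 1 ≠ 0 →
    ∃ s : Fin (m + 2) → R, (∀ j, a ∣ s j) ∧
      Ideal.span (Set.range fun j => x j + s j * y j) = ⊤

/-- JOB ZS-TRA. Transitivity of `EEp` on unimodular vectors (given `SDec1` as hypothesis).

Proof. Write `v = (x, y)` (`x = v ∘ inl`, `y = v ∘ inr`), `U S = (1, S; 0, 1)`,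
`L S = (1, 0; S, 1)` for symmetric `S`; these are in the symplectic group, `U S (x, y) = (x + S y, y)`,
`L S (x, y) = (x, y + S x)`, and they are in `EEp` if `S` is divisible by `a`. (1) If `y 1 = 0`
apply `L (a (E_01 + E_10))`; then `y 1 = a * x 0 ≠ 0` (`x 0 ≠ 0` as `a` is not a unit), everything
else is kept. (2) `SDec1` gives `s`; apply `U (diagonal s)`: now `x` is unimodular, `p ⬝ᵥ x = 1`.
(3) For every `w` divisible by `a` the symmetric matrix `S = w pᵀ + p wᵀ - (w ⬝ᵥ x) p pᵀ` is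
divisible by `a` and `S x = w`; use this to get `y = (0, -(x 0 - 1), 0, ..)` by `L S`.
(4) Let `P = E_01 + E_10`. `U P` changes `x 0` to `1` and keeps `y` (and `x = e_0 mod a`).
(5) Now `p = e_0` has `p ⬝ᵥ x = 1`: as in (3) get `y = 0` by some `L S`. (6) `(x, 0)` with
`x = (1, x 1, ..)`: `L E_00` gives `(x, e_0)`, then `U T` with
`T = - ∑ j ≥ 1, x j (E_0j + E_j0)` gives `(e_0, e_0)`, then `L (-E_00)` gives `(e_0, 0)`;
`L (-E_00) * U T * L E_00 ∈ EEp`. (7) `U (-P)` fixes `(e_0, 0)`; the product of (4), (5), (6), (7)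
is a conjugate of an element of `EEp` by `U P`. -/
def STra : Prop :=
  ∀ (R : Type) [CommRing R] [IsDomain R] [IsDedekindDomain R] (m : ℕ) (a : R), a ≠ 0 →
    ¬ IsUnit a → ∀ v : Fin (m + 2) ⊕ Fin (m + 2) → R, Ideal.span (Set.range v) = ⊤ →
    a ∣ v (Sum.inl 0) - 1 → (∀ j, j ≠ Sum.inl 0 → a ∣ v j) →
    ∃ g ∈ EEp R (m + 2) a, g.1 *ᵥ v = Pi.single (Sum.inl 0) 1

/-- JOB ZS-DEC. (given `STra` as hypothesis)

Proof. `STra` for the column `g e_0`, `e_0 = Pi.single (inl 0) 1` (unimodular, as `g` is invertible)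
gives `x`, `g' = x g` fixes `e_0` and is `1` modulo `a` (elements of `EEp` are `1` modulo `a`).
Let `g' f_0 = (p, q)`, `f_0 = Pi.single (inr 0) 1`. `g'` preserves the alternating form, so
`q 0 = 1`, and `q = e_0`, `p = 0` modulo `a`. For `c : Fin (m + 2) → R` with `c 0 = 0`, `a ∣ c j`,
the matrix `M c = (1 + e_0 cᵀ, 0; 0, 1 - c e_0ᵀ)` is symplectic and in `EEp`: with `P = E_00`,
`S = e_0 cᵀ + c e_0ᵀ` one has `U P * L S * U (-P) * L (-S) = M c * L (c cᵀ)`. It fixes `e_0` and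
maps `(p, q)` to `(p + .., q - c)`; take `c = q - e_0`; then `q = e_0`. Then apply `U S`,
`S = -(p e_0ᵀ + e_0 pᵀ - p 0 E_00)`, it fixes `e_0` and maps `(p, e_0)` to `(0, e_0) = f_0`. -/
def SDecG : Prop :=
  ∀ (R : Type) [CommRing R] [IsDomain R] [IsDedekindDomain R] (m : ℕ) (a : R), a ≠ 0 →
    ¬ IsUnit a → ∀ g : symplecticGroup (Fin (m + 2)) R,
    (∀ i j, a ∣ g.1 i j - (1 : Matrix (Fin (m + 2) ⊕ Fin (m + 2)) (Fin (m + 2) ⊕ Fin (m + 2)) R) i j) →
    ∃ x ∈ EEp R (m + 2) a,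
      (x * g).1 *ᵥ Pi.single (Sum.inl 0) 1 = Pi.single (Sum.inl 0) 1 ∧
      (x * g).1 *ᵥ Pi.single (Sum.inr 0) 1 = Pi.single (Sum.inr 0) 1

/-- JOB ZS-CEN. Elements which fix `e_0 = Pi.single (inl 0) 1` and `f_0 = Pi.single (inr 0) 1` and
are `1` modulo `a` commute with `Esp` modulo `EEp`.

Proof. Let `ω(u, v) = (J *ᵥ u) ⬝ᵥ v`, `J` the matrix of Mathlib (`Matrix.J`), so
`ω(e_0, f_0) = 1`, `T(u, c) = 1 + c u (J u)ᵀ` (maps `v` to `v + c ω(u, v) u`) and for `ω(u, w) = 0`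
`E(u, w) = 1 + w (J u)ᵀ + u (J w)ᵀ` (maps `v` to `v + ω(u, v) w + ω(w, v) u`); they are symplectic,
`g T(u, c) g⁻¹ = T(g u, c)`, `g E(u, w) g⁻¹ = E(g u, g w)`, `T(u, c)` commutes with `E(u, w)`,
`E(u, w) E(u, w') = E(u, w + w') T(u, ω(w, w'))` (if `ω(u, w) = ω(u, w') = 0`).
`T(e_0, c) = U(c E_00)`, `T(f_0, c) = L(-c E_00)` and for `j ≠ 0` `E(e_0, c e_j) = U(c (E_0j + E_j0))`,
`E(e_0, c f_j) = M = (1 - c E_0j, 0; 0, 1 + c E_j0)`,
`E(f_0, c f_j) = L(-c (E_0j + E_j0))`, `E(f_0, c e_j) = (1 - c E_j0, 0; 0, 1 + c E_0j)`.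
(1) These elements (`U(c E_00)`, `L(c E_00)`, `U(c (E_0j + E_j0))`, `L(c (E_0j + E_j0))`,
`M(1 + c E_0j)`, `M(1 + c E_j0)`, `M A = (A, 0; 0, (A⁻¹)ᵀ)`) generate `Esp R (m + 2)`: use
`M A * U S * (M A)⁻¹ = U (A S Aᵀ)`, `M A * L S * (M A)⁻¹ = L ((A⁻¹)ᵀ S A⁻¹)`. With `A = 1 - E_j0`,
`S = c E_00` one gets `U(c (E_00 - E_0j - E_j0 + E_jj))`, so `U(c E_jj)`; with `A = 1 + E_i0`,
`S = c (E_0j + E_j0)`, `i ≠ j`, one gets `U(c (E_0j + E_j0 + E_ij + E_ji))`, so
`U(c (E_ij + E_ji))`; the same for `L`; every symmetric matrix is a sum of `c E_jj` and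
`c (E_ij + E_ji)`. (2) `T(e_0, c)`, `T(f_0, c)` commute with `g`. (3) For `w = c e_j` or
`c f_j`, `j ≠ 0`: `g E(e_0, w) g⁻¹ E(e_0, w)⁻¹ = E(e_0, g w) E(e_0, -w) = E(e_0, a w') T(e_0, a d)`
where `g w - w = a w'`; `w'` has no components at `e_0`, `f_0` (`R` is a domain and `g` preserves
`ω`, so `ω(e_0, g w) = ω(g e_0, g w) = 0`; if `a = 0` then `g = 1`, trivial), so
`E(e_0, a w')` is a product of `E(e_0, a c e_j)`, `E(e_0, a c f_j)`, `T(e_0, a c)`, all in `EEp`:
for `c` with `c 0 = 0` and `P = E_00`, `S = e_0 cᵀ + c e_0ᵀ` one has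
`U P * L S * U (-P) * L (-S) = (1 + e_0 cᵀ, 0; 0, 1 - c e_0ᵀ) * L (c cᵀ)`.
The same for `f_0` (or conjugate by `w_0`, which commutes with `g` and normalises `EEp`).
(4) The set of `y ∈ Esp` with `g y g⁻¹ y⁻¹ ∈ EEp` is closed under products and inverses as `Esp`
normalises `EEp` (`[g, y z] = [g, y] * y [g, z] y⁻¹`). -/
def SCen : Prop :=
  ∀ (R : Type) [CommRing R] [IsDomain R] (m : ℕ) (a : R) (g : symplecticGroup (Fin (m + 2)) R),
    (∀ i j, a ∣ g.1 i j - (1 : Matrix (Fin (m + 2) ⊕ Fin (m + 2)) (Fin (m + 2) ⊕ Fin (m + 2)) R) i j) →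
    g.1 *ᵥ Pi.single (Sum.inl 0) 1 = Pi.single (Sum.inl 0) 1 →
    g.1 *ᵥ Pi.single (Sum.inr 0) 1 = Pi.single (Sum.inr 0) 1 →
    ∀ y ∈ Esp R (m + 2), g * y * g⁻¹ * y⁻¹ ∈ EEp R (m + 2) a

/-- JOB ZS-PERF. `Esp R n` is perfect for `n ≥ 3`.

Proof. Write `U S`, `L S`, and `M A = (A, 0; 0, (A⁻¹)ᵀ)`; `M (1 + c E_ij)`, `i ≠ j`, is in `Esp`:
with `P = E_ii`, `S = c (E_ij + E_ji)` one has `U P * L S * U (-P) = M(1 + c E_ij) * L(..)` up to
sign (all factors elementary). `M A * U S * (M A)⁻¹ = U (A S Aᵀ)`. For three different `i, j, k` the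
commutator of `M (1 + c E_ik)` and `U (E_kj + E_jk)` is `U (c (E_ij + E_ji))`; so
`U (c (E_ij + E_ji))` is in the commutator subgroup for `i ≠ j`. The commutator of `M (1 + E_ij)`
and `U (c E_jj)` is `U (c (E_ij + E_ji + E_ii))`, so `U (c E_ii)` is in the commutator subgroup. The
same for `L`, and every symmetric matrix is a sum of such. -/
def SPerf : Prop :=
  ∀ (R : Type) [CommRing R] (m : ℕ), commutator (Esp R (m + 3)) = ⊤

/-- JOB ZS-NC. A normal subgroup of `Esp` which contains a diagonal matrix with entries `±1` which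
is not constant contains `EEp R n 4`.

Proof. Let `ε i ≠ ε j` and `z` the matrix. For `S = c (E_ij + E_ji)` the commutator of `z` and
`U S` is `U (-2 S)`, so `U (2 c (E_ij + E_ji)) ∈ N` for all `c`. `M (1 + E_kj)`, `k ≠ j`, is in
`Esp` (see ZS-PERF) and `M A * U S * (M A)⁻¹ = U (A S Aᵀ)`; for `k ≠ i, j` this gives
`U (2 c (E_ik + E_ki)) ∈ N`, and then `U (2 c (E_lk + E_kl)) ∈ N` for all `l ≠ k`. With
`A = 1 + E_kl` one has `A (E_kl + E_lk) Aᵀ = E_kl + E_lk + 2 E_kk`, so `U (4 c E_kk) ∈ N`. So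
`U (4 S) ∈ N` for all symmetric `S` (a sum of multiples of `E_kk` and `E_kl + E_lk`). The same for
`L` (use `M A` with `(A⁻¹)ᵀ`, or transpose). `N` is normal in `Esp`. -/
def SNC : Prop :=
  ∀ (R : Type) [CommRing R] (n : ℕ) (N : Subgroup (Esp R n)), N.Normal →
    ∀ (ε : Fin n → ℤˣ) (z : Esp R n), z ∈ N → (∃ i j, ε i ≠ ε j) →
    z.1.1 = fromBlocks (diagonal fun i => ((ε i : ℤ) : R)) 0 0 (diagonal fun i => ((ε i : ℤ) : R)) →
    ∀ x : Esp R n, x.1 ∈ EEp R n 4 → x ∈ N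

/-- JOB ZS-REP. Real representations of dimension `< 4 (n - 1)` of a group which contains `n`
quaternion groups.

Proof. Like `Q4.ZI.lin_aux` (file Pool/Agent/Q4/ZI/Lin.lean; `exists_min`, `Inv`, `res`, `quo` can
be copied with `Group D` in place of `CommGroup A`). Claim, by strong induction on `finrank V`: for
every subgroup `Ω` of `Fin n → ℤˣ` there is a subgroup `Ω' ≤ Ω` with `ρ (z ε) = 1` for all
`ε ∈ Ω'` and `Nat.card Ω ≤ Nat.card Ω' * 2 ^ (finrank ℝ V / 4)`. If `Ω` acts trivially take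
`Ω' = Ω`. Otherwise let `ε0 ∈ Ω`, `g0 = z ε0`, `ρ g0 ≠ 1`; `g0` is central of order `2`, so
`U = range (ρ g0 - 1) ≠ 0` is invariant and `g0` is `-1` on `U`. Let `W ≤ U` be a minimal nonzero
invariant subspace. Each `z ε` is `1` or `-1` on `W` (`W` is the sum of the invariant subspaces
`(1 + z ε) W` and `(1 - z ε) W`, the kernels of `z ε - 1`, `z ε + 1`), so
`Ω1 = {ε ∈ Ω | z ε = 1 on W}` has index `≤ 2` in `Ω`. As `g0 = -1` on `W` and `ε0` is a product of
`Pi.mulSingle i (-1)`'s, some `z (Pi.mulSingle i (-1))` is `-1` on `W`; there `I i`, `J i` are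
operators with squares `-1` which anticommute, so for `w ≠ 0` in `W` the vectors `w, I w, J w, I J w`
are linearly independent (`(α + β I + γ J + δ I J)` times its conjugate is
`α² + β² + γ² + δ²`): `finrank W ≥ 4`. Induction for `V / W` and `Ω1`: `Ω' ≤ Ω1` trivial on `V / W`
and on `W`, of exponent two, so trivial on `V` (as in `lin_aux`). With `Ω = ⊤` (`2 ^ n` elements) and
`finrank V / 4 ≤ n - 2` we get `Nat.card Ω' ≥ 4`, so `Ω'` contains a nonconstant `ε`
(there are only two constant ones). -/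
def SRep : Prop :=
  ∀ (D : Type) [Group D] [Finite D] (n : ℕ) (z : (Fin n → ℤˣ) →* D) (I J : Fin n → D),
    (∀ ε d, z ε * d = d * z ε) →
    (∀ i, I i * I i = z (Pi.mulSingle i (-1)) ∧ J i * J i = z (Pi.mulSingle i (-1)) ∧
      I i * J i = z (Pi.mulSingle i (-1)) * (J i * I i)) →
    ∀ (V : Type) [AddCommGroup V] [Module ℝ V] [FiniteDimensional ℝ V] (ρ : D →* (V →ₗ[ℝ] V)),
      Module.finrank ℝ V < 4 * (n - 1) → ∃ ε : Fin n → ℤˣ, (∃ i j, ε i ≠ ε j) ∧ ρ (z ε) = 1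

/-- JOB ZS-DQ. The group `Dq`.

Proof. (1) `Subgroup.closure {I, J}` consists of `±1, ±I, ±J, ±I J` (this set is closed under
multiplication by `I`, `J` and their inverses `-I`, `-J`), it is finite and its elements satisfy
`h ^ 4 = 1`. So `Dq` is finite (the element is determined by its matrix `blk h`, so there are at most
`8 ^ n`) and all its elements satisfy `x ^ 4 = 1`, it is a `2`-group. (2) For `h : GL (Fin 2) R` in
`Q4.ZI.En R 2` and `i : Fin n` there is `x ∈ Esp R n` whose matrix is `blk` of the family with `h` at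
`i` and `1` at the other places: the elementary matrices give `U (c E_ii)`, `L (c E_ii)`; induction
over the closure. This gives `I i`, `J i` of `Dq`, and the elements `z ε = blk (ε i • 1)` as products
of their squares (`-1 = I * I`). `z` is a homomorphism with central values because the matrices of
`Dq` determine the elements. -/
def SDq : Prop :=
  ∀ (R : Type) [CommRing R] (n : ℕ) (I J : GL (Fin 2) R), I ∈ Q4.ZI.En R 2 → J ∈ Q4.ZI.En R 2 →
    I * I = -1 → J * J = -1 → I * J = -(J * I) →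
    Finite (Dq R n I J) ∧ IsPGroup 2 (Dq R n I J) ∧
    ∃ (z : (Fin n → ℤˣ) →* Dq R n I J) (I' J' : Fin n → Dq R n I J),
      (∀ ε d, z ε * d = d * z ε) ∧
      (∀ i, I' i * I' i = z (Pi.mulSingle i (-1)) ∧ J' i * J' i = z (Pi.mulSingle i (-1)) ∧
        I' i * J' i = z (Pi.mulSingle i (-1)) * (J' i * I' i)) ∧
      ∀ ε, (z ε).1.1.1 = fromBlocks (diagonal fun i => ((ε i : ℤ) : R)) 0 0
        (diagonal fun i => ((ε i : ℤ) : R))

/-- (helper4) finiteness -/
def SFin : Prop :=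
  ∀ (F : Type) [Field F] [NumberField F] (m : ℕ) (a : 𝓞 F), a ≠ 0 →
    ∀ N : Subgroup (Esp (𝓞 F) (m + 3)), N.Normal →
      (∀ x : Esp (𝓞 F) (m + 3), x.1 ∈ EEp (𝓞 F) (m + 3) a → x ∈ N) → N.FiniteIndex

end Q4.ZS
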