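import Pool.Agent.Q4.ZS.Stm

/-!
# Project ZS (helper4), second part: points with small orbits (even Euler characteristic)
-/

open Matrix NumberField
open scoped Manifold ContDiff

namespace Q4.ZS

/-- the central element of `Q_8^n` with the signs `ε` (`a 2` is the central involution of
`QuaternionGroup 2`, the quaternion group of order `8`) -/
def zq {n : ℕ} (ε : Fin n → ℤˣ) : Fin n → QuaternionGroup 2 :=
  fun i => if ε i = 1 then 1 else QuaternionGroup.a 2

/-- JOB ZS-REP2. Real representations of dimension `< 4 (n - 1 - k)` of a subgroup of index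
`≤ 2 ^ k` of `Q_8^n`.

Proof. Write `Q = QuaternionGroup 2`, `c = a 2`; `c` is central, `c² = 1` and `q² = c` for every
`q ∈ Q` different from `1` and `c`. `D = Q^n`, `Ω = {zq ε}`, a central subgroup of exponent two,
`x² ∈ Ω` for all `x ∈ D`, and the `i`-th component of `x²` is `1` iff the `i`-th component of `x` is
`1` or `c`. `Ω_E = Ω ∩ E`. By strong induction on `finrank V` (as in `Q4.ZI.lin_aux`, file
Pool/Agent/Q4/ZI/Lin.lean; `exists_min`, `Inv`, `res`, `quo` can be copied with a general group in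
place of `CommGroup A`; the statement is for all `V`, `ρ`, `Ω0`, `K0`, `E0`):

CLAIM. Let `Ω0 ≤ K0 ≤ Ω_E` and `E0 ≤ E` be subgroups such that all squares of elements of `E0` are
in `K0`. Then there are subgroups `Ω1 ≤ Ω0`, `Ω1 ≤ K1 ≤ K0`, `E1 ≤ E0` and `r, c : ℕ` such that all
squares of elements of `E1` are in `K1`, `ρ` is trivial on `Ω1`, `|Ω0| ≤ |Ω1| 2^r`,
`|K1| 2^c ≤ |K0|`, `|E0| ≤ |E1| 2^c` and `4 r ≤ finrank V + 4 c`.

Proof of the claim. If `Ω0` acts trivially take `r = c = 0`. Otherwise let `g0 ∈ Ω0`, `ρ g0 ≠ 1`;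
`U = range (ρ g0 - 1) ≠ 0` is invariant (`g0` is central), `g0 = -1` on `U`. Let `W ≤ U` be a minimal
nonzero invariant subspace. Each `z ∈ Ω_E` is `σ z = 1` or `-1` on `W` (the kernels of `z - 1`,
`z + 1` on `W` are invariant). `Ω0' = Ω0 ∩ ker σ` has index `2` in `Ω0`. Case A: `finrank W ≥ 4`.
Use the induction hypothesis for `V / W`, `Ω0'`, `K0`, `E0` and take `r + 1`, `c` (an element of
exponent two, trivial on `W` and on `V / W`, is trivial on `V`). Case B: `finrank W ≤ 3`. Then there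
is a subgroup `E_W ≤ E` of index `≤ 2` such that `x² = 1` on `W` for all `x ∈ E_W`: every
`x ∈ E` satisfies `x² = ± 1` on `W`. If always `x² = 1` take `E_W = E`. Otherwise let `i ∈ E` with
`i² = -1` on `W`, so `W` is a complex vector space and `finrank W = 2` (it is even and nonzero). For
`x ∈ E` one has `x i = i x` or `x i = - i x` on `W` (as `x², i², (x i)²` are `± 1`). If all `x`
commute with `i` on `W`: `x` is multiplication with a complex number with square `± 1`, so `x` acts
as `± 1` or `± i`, and `E_W` = the `x` which act as `± 1`. If some `j` does not commute with `i`: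
`j² = -1` on `W` is impossible (`w, i w, j w, i j w` would be linearly independent:
`(α + β i + γ j + δ i j)` times its conjugate is `α² + β² + γ² + δ²`), so `j² = 1` on `W`; every
`x ∈ E` acts as an element of `{± 1, ± i, ± j, ± i j}` (`x` or `j x` commutes with `i`), and
`E_W` = the `x` which act as `± 1` or `± j`. Now use the induction hypothesis for `V / W`, `Ω0'`,
`K0' = K0 ∩ ker σ` (index exactly `2`, as `σ g0 = -1`), `E0' = E0 ∩ E_W` (its squares are in `K0'`)
and take `r + 1`, `c + 1`.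

Apply the claim with `Ω0 = K0 = Ω_E`, `E0 = E`. COUNTING: `|E1| ≤ |Ω_E| |K1|²`: consider
`E1 → D / Ω`, `x ↦ x̄`, the kernel is contained in `Ω_E`; `K1 ≤ Ω = (ℤ/2)^n` is a linear code of
dimension `m`, there is a set `T` of `m` coordinates such that an element of `K1` is determined by
its `T`-components; if `x ∈ E1` and `x̄` has trivial components in `T` then `x² ∈ K1` has trivial
components in `T`, so `x² = 1`, `x̄ = 1`; so there are at most `4^m = |K1|²` possible `x̄`. Hence
`8^n / 2^k ≤ |E| ≤ |E1| 2^c ≤ |Ω_E| |K1|² 2^c ≤ |Ω_E|³ / 2^c`. With `|Ω_E| = 2^w`, `w ≤ n`: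
`3 n - k ≤ 3 w - c`, and `|Ω1| ≥ 2^(w - r)`, `w - r ≥ w - c - finrank V / 4 ≥
3 n - 2 w - k - finrank V / 4 ≥ n - k - (n - 2 - k) = 2`. So `|Ω1| ≥ 4` and `Ω1` contains some
`zq ε` with `ε` not constant (there are only two constant `ε`). -/
def SRep2 : Prop :=
  ∀ (n k : ℕ) (E : Subgroup (Fin n → QuaternionGroup 2)), E.index ≤ 2 ^ k →
    ∀ (V : Type) [AddCommGroup V] [Module ℝ V] [FiniteDimensional ℝ V] (ρ : E →* (V →ₗ[ℝ] V)),
      Module.finrank ℝ V < 4 * (n - 1 - k) →
      ∃ (ε : Fin n → ℤˣ) (h : zq ε ∈ E), (∃ i j, ε i ≠ ε j) ∧ ρ ⟨zq ε, h⟩ = 1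

/-- JOB ZS-DQ2. A homomorphism from `Q_8^n` to `Dq`.

Proof. `QuaternionGroup 2 → GL (Fin 2) R`, `a i ↦ I ^ i.val`, `xa i ↦ J * I ^ i.val` is a
homomorphism (`xa i * xa j = a (2 + j - i)`, `J I^i J I^j = J² I^(-i) I^j`, `I^4 = 1`, `J² = I²`;
finitely many cases). For `h : Fin n → QuaternionGroup 2` the block matrix `blk` of the images is in
`Esp R n` and in `Dq` (file Pool/Agent/Q285/ZS/Dq.lean has the elements with one block), and
`a 2 ↦ I² = -1`. -/
def SDq2 : Prop :=
  ∀ (R : Type) [CommRing R] (n : ℕ) (I J : GL (Fin 2) R), I ∈ Q4.ZI.En R 2 → J ∈ Q4.ZI.En R 2 →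
    I * I = -1 → J * J = -1 → I * J = -(J * I) →
    ∃ φ : (Fin n → QuaternionGroup 2) →* Dq R n I J, ∀ ε : Fin n → ℤˣ,
      (φ (zq ε)).1.1.1 = fromBlocks (diagonal fun i => ((ε i : ℤ) : R)) 0 0
        (diagonal fun i => ((ε i : ℤ) : R))

end Q4.ZS
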